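import Pool.Agent.Helper73.KT.Part
import Pool.Agent.Helper73.LF.Lin
import Pool.Agent.Helper73.LF.Chars
import Pool.Agent.Helper73.QC.Add
import Pool.Agent.Helper73.QC.Res
import Pool.Agent.Helper73.QC.Two
import Pool.Agent.Helper73.QC.Orbit
import Pool.Agent.Helper40.QC.K5
import Pool.Agent.Helper44.QC.SelfAny
import Pool.Agent.Helper41.RC.Field
import Pool.Agent.Helper41.RC.Block
import Pool.Agent.Helper79.RC.Parity

/-!
# Frobenius on `H²(X̄, ℚ_ℓ)` for the abelian covers of `ℓ`-power exponent of the plane branched along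
# a complete quadrilateral
-/

open Module

namespace Pool.Agent.Results.MP_1fe969_ag.RamifiedCovers

open Pool.Agent.Helper73.KT Pool.Agent.Helper73.LF Pool.Agent.Helper73.QC Pool.Agent.Helper41.RC

/-- the sum over the points of the complement of the quadrilateral -/
noncomputable def quadSum {K L : Type} [Field K] [Fintype K] [Field L]
    (χ : Fin 5 → MulChar K L) : L :=
  ∑ x : K, ∑ y : K, χ 0 x * χ 1 (1 - x) * χ 2 y * χ 3 (1 - y) * χ 4 (x - y)

/-- the exponents of `x ^ a 0 * (1 - x) ^ a 1 * y ^ a 2 * (1 - y) ^ a 3 * (x - y) ^ a 4` along the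
ten curves at the boundary of the moduli space of five points on the projective line -/
def residues {R : Type} [CommRing R] (a : Fin 5 → R) : Fin 10 → R :=
  ![a 0, a 1, a 2, a 3, a 4, -(a 0 + a 1 + a 4), -(a 2 + a 3 + a 4), a 0 + a 2 + a 4,
    a 1 + a 3 + a 4, -(a 0 + a 1 + a 2 + a 3 + a 4)]

/-- the power of the character `τ` with exponent `(q - 1) a / n`, `q` the number of elements -/
noncomputable def power {K L : Type} [Field K] [Fintype K] [Field L] {n : ℕ} (τ : MulChar K L)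
    (a : ZMod n) : MulChar K L := τ ^ ((Fintype.card K - 1) * a.val / n)

/-- Frobenius on `V = H²(X̄, L)` and the parts of `V` belonging to the characters of the group of
the cover. -/
structure QuadrilateralH2 (p n : ℕ) (L V : Type) [Field L] [AddCommGroup V] [Module L V] where
  /-- the geometric Frobenius -/
  Fr : End L V
  injective : Function.Injective Fr
  /-- the cup product -/
  B : LinearMap.BilinForm L V
  symm : ∀ x y, B x y = B y x
  similitude : ∀ x y, B (Fr x) (Fr y) = (p : L) ^ 2 * B x y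
  /-- the span of algebraic classes -/
  N : Submodule L V
  N_stable : ∀ x ∈ N, Fr x ∈ N
  N_semisimple : End.IsSemisimple (Fr.restrict N_stable)
  /-- the part belonging to the character with the exponents `a` -/
  W : (Fin 5 → ZMod n) → Submodule L V
  span : N ⊔ ⨆ a, W a = ⊤
  stable : ∀ a, ∀ x ∈ W a, Fr x ∈ W (fun i => p * a i)
  perfect : ∀ a, ∀ v ∈ W a, (∀ w ∈ W (-a), B v w = 0) → v = 0
  finrank_le : ∀ a, finrank L (W a) ≤ 2
  /-- the character is unramified along one of the ten curves and its square is not trivial -/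
  finrank_le_one : ∀ a, (∃ i, residues a i = 0) → (∃ i, 2 * a i ≠ 0) → finrank L (W a) ≤ 1
  /-- the trace formula -/
  trace_formula : ∀ (m : ℕ) (K : Type) [Field K] [Fintype K],
    Fintype.card K = p ^ m → ∃ τ : MulChar K L, orderOf τ = p ^ m - 1 ∧
      ∀ a, W a ≠ ⊥ → (∀ i, residues a i ≠ 0) → (∀ i, (p : ZMod n) ^ m * a i = a i) →
        ∀ h : ∀ x ∈ W a, (Fr ^ m) x ∈ W a,
          LinearMap.trace L (W a) ((Fr ^ m).restrict h) = quadSum fun i => power τ (a i)

/-- The same with `ℓ = r`: `V = H²(X̄, ℚ_r) ⊗ L` for a field `L` containing `E = ℚ_r(ζ)`, `b` is a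
basis of `H²(X̄, ℚ_r)`, and the determinant of the Hermitian form given by the cup product on the
part with the exponents `a` is the product of the ten numbers `1 - ζ ^ x`, `x` the exponents along
the ten curves, up to a norm. -/
structure RationalH2 (p : ℕ) {r n : ℕ} {E : Type} [Field E] (F : RField r n E) (L V : Type)
    [Field L] [Algebra E L] [AddCommGroup V] [Module L V] extends QuadrilateralH2 p n L V where
  d : ℕ
  /-- a basis of the cohomology with coefficients in `ℚ_r` -/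
  b : Basis (Fin d) L V
  Fr_rational : ∀ i j, ∃ x : E, F.σ x = x ∧ b.repr (Fr (b i)) j = algebraMap E L x
  B_rational : ∀ i j, ∃ x : E, F.σ x = x ∧ B (b i) (b j) = algebraMap E L x
  W_rational : ∀ a, W a ≤ Submodule.span L {x | x ∈ W a ∧ ∃ c : Fin d → E, x = vec b c}
  det : ∀ a, (∀ i, residues a i ≠ 0) → ∀ c c' : Fin d → E, vec b c ∈ W a → vec b c' ∈ W a →
    LinearIndependent L ![vec b c, vec b c'] → ∃ z : E, z ≠ 0 ∧
      B (vec b c) (vec b fun i => F.σ (c i)) * B (vec b c') (vec b fun i => F.σ (c' i)) -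
        B (vec b c) (vec b fun i => F.σ (c' i)) * B (vec b c') (vec b fun i => F.σ (c i)) =
      algebraMap E L (z * F.σ z * ∏ i, (1 - F.ζ ^ (residues a i).val))

/-! Notions used in the proof -/

/-- the sum of the representatives of the ten exponents in `[0, n)`, divided by `n` -/
def height {n : ℕ} (a : Fin 5 → ZMod n) : ℕ := (∑ i, (residues a i).val) / n

/-- A power of `p` maps the exponents to their negatives, and one of the ten exponents is killed by
a power of an odd prime `r`. -/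
def SelfDual (p : ℕ) {n : ℕ} (a : Fin 5 → ZMod n) : Prop :=
  ∃ f r j : ℕ, r.Prime ∧ r ≠ 2 ∧ (∀ i, (p : ZMod n) ^ f * a i = -a i) ∧
    ∃ i, (r : ZMod n) ^ j * residues a i = 0

/-- A power `p ^ m` fixes the exponents, and the sum of `1 + height` over the multiples of the
exponents by `h p ^ j`, `j < m`, is odd for a unit `h`. -/
def OddPlace (p : ℕ) {n : ℕ} (a : Fin 5 → ZMod n) : Prop :=
  ∃ m, 0 < m ∧ (∀ i, (p : ZMod n) ^ m * a i = a i) ∧ ∃ h : (ZMod n)ˣ,
    Odd (m + ∑ j ∈ Finset.range m, height fun i => (h : ZMod n) * (p : ZMod n) ^ j * a i)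

theorem of_dual {p n : ℕ} {a : Fin 5 → ZMod n}
    (h : Pool.Agent.Helper73.QC.SelfDual p a ∨ Pool.Agent.Helper73.QC.OddPlace p a) :
    SelfDual p a ∨ OddPlace p a := by
  rcases h with ⟨f, r, j, hr, hr2, hf, -, hi⟩ | h
  · exact Or.inl ⟨f, r, j, hr, hr2, hf, hi⟩
  · exact Or.inr h

section

variable {p n : ℕ} {L V : Type} [Field L] [AddCommGroup V] [Module L V]

theorem stable_pow (H : QuadrilateralH2 p n L V) (j : ℕ) (a : Fin 5 → ZMod n) :
    ∀ x ∈ H.W a, (H.Fr ^ j) x ∈ H.W (fun i => (p : ZMod n) ^ j * a i) := by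
  induction j with
  | zero =>
    intro x hx
    simp only [pow_zero, one_mul]
    exact hx
  | succ j ih =>
    intro x hx
    have h := H.stable _ _ (ih x hx)
    simp only [← mul_assoc, ← pow_succ'] at h
    rw [pow_succ' H.Fr]
    exact h

theorem stable_of (H : QuadrilateralH2 p n L V) {m : ℕ} {a : Fin 5 → ZMod n}
    (ha : ∀ i, (p : ZMod n) ^ m * a i = a i) : ∀ x ∈ H.W a, (H.Fr ^ m) x ∈ H.W a := by
  intro x hx
  have h := stable_pow H m a x hx
  rwa [funext ha] at h

theorem similitude_pow (H : QuadrilateralH2 p n L V) (j : ℕ) (x y : V) :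
    H.B ((H.Fr ^ j) x) ((H.Fr ^ j) y) = ((p : L) ^ j) ^ 2 * H.B x y := by
  induction j generalizing x y with
  | zero => simp
  | succ j ih =>
    rw [pow_succ, End.mul_apply, End.mul_apply, ih, H.similitude, pow_succ]
    ring

theorem ne_bot_neg (H : QuadrilateralH2 p n L V) {a : Fin 5 → ZMod n} (h : H.W a ≠ ⊥) :
    H.W (-a) ≠ ⊥ := by
  intro h0
  apply h
  rw [eq_bot_iff]
  intro v hv
  rw [Submodule.mem_bot]
  apply H.perfect a v hv
  intro w hw
  rw [h0, Submodule.mem_bot] at hw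
  rw [hw, map_zero]

variable [CharZero L] [IsAlgClosed L] [FiniteDimensional L V]

/-- a part belonging to a character of order two -/
theorem case_two (H : QuadrilateralH2 p n L V) (hp : p.Prime) (hpn : p.Coprime n)
    {a : Fin 5 → ZMod n} (h2 : ∀ i, 2 * a i = 0) : H.W a ≤ ⨆ c, H.Fr.eigenspace c := by
  have hneg : -a = a := by
    funext i
    rw [Pi.neg_apply]
    linear_combination - h2 i
  have hpa : ∀ i, (p : ZMod n) ^ 1 * a i = a i := by
    intro i
    rw [pow_one]
    rcases hp.eq_two_or_odd' with h | ⟨j, hj⟩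
    · -- `2` is a unit
      have h3 : IsUnit (2 : ZMod n) := by
        have := (ZMod.isUnit_iff_coprime p n).2 hpn
        rw [h] at this
        exact_mod_cast this
      have h4 : a i = 0 := h3.mul_right_eq_zero.1 (h2 i)
      rw [h4, mul_zero]
    · rw [hj]
      push_cast
      linear_combination (j : ZMod n) * h2 i
  refine le_of_restrict H.injective one_pos (stable_of H hpa) ?_
  intro x c hx
  by_contra hx'
  have hc : ((p : L) ^ 1) ^ 2 ≠ 0 := pow_ne_zero _ (pow_ne_zero _ (Nat.cast_ne_zero.2 hp.ne_zero))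
  exact symm_no_block (T := (H.Fr ^ 1).restrict (stable_of H hpa))
    (H.B.compl₁₂ (H.W a).subtype (H.W a).subtype) hc
    (fun y z => similitude_pow H 1 (y : V) (z : V)) (fun y z => H.symm _ _)
    (fun y hy => Subtype.ext (H.perfect a y y.2 fun w hw => by
      rw [hneg] at hw
      exact hy ⟨w, hw⟩)) (H.finrank_le a) hx hx'

/-- a part on which a power of Frobenius has no Jordan block -/
theorem part (H : QuadrilateralH2 p n L V) {m : ℕ} (hm : 0 < m) {a : Fin 5 → ZMod n}
    (h2 : ∃ i, 2 * a i ≠ 0) (ha : ∀ i, (p : ZMod n) ^ m * a i = a i)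
    (hbad : H.W a ≠ ⊥ → (∀ i, residues a i ≠ 0) →
      ∀ (x : H.W a) (c : L), ((H.Fr ^ m).restrict (stable_of H ha) - c • 1)
        (((H.Fr ^ m).restrict (stable_of H ha) - c • 1) x) = 0 →
          ((H.Fr ^ m).restrict (stable_of H ha) - c • 1) x ≠ 0 → False) :
    H.W a ≤ ⨆ c, H.Fr.eigenspace c := by
  refine le_of_restrict H.injective hm (stable_of H ha) ?_
  intro x c hx
  by_contra hx'
  have h2' := two_le hx hx'
  have hne : H.W a ≠ ⊥ := by
    intro h0
    rw [h0, finrank_bot] at h2'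
    omega
  refine hbad hne ?_ x c hx hx'
  by_contra hdeg
  push Not at hdeg
  have := H.finrank_le_one a hdeg h2
  omega

end

section

variable {p n : ℕ} [hp : Fact p.Prime] [NeZero n] {L V : Type} [Field L] [AddCommGroup V]
    [Module L V] [CharZero L] [IsAlgClosed L] [FiniteDimensional L V]

omit [NeZero n] in
theorem kill {m : ℕ} {a : ZMod n} (ha : (p : ZMod n) ^ m * a = a) :
    ((p ^ m - 1 : ℕ) : ZMod n) * a = 0 := by
  rw [Nat.cast_sub (Nat.one_le_pow _ _ hp.out.pos), Nat.cast_one, Nat.cast_pow, sub_mul, ha,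
    one_mul, sub_self]

omit hp [NeZero n] in
theorem exists_addChar (L : Type) [Field L] [CharZero L] [IsAlgClosed L] (K : Type) [Field K]
    [Fintype K] : ∃ ψ : AddChar K L, ψ.IsPrimitive := by
  have h : ringChar L ≠ ringChar K := by
    rw [ringChar.eq_zero]
    intro h
    have : CharP K 0 := by
      rw [h]
      exact ringChar.charP K
    have : CharZero K := CharP.charP_to_charZero K
    exact not_injective_infinite_finite (Nat.cast : ℕ → K) Nat.cast_injective
  let ψ := AddChar.FiniteField.primitiveChar K L h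
  have hcyc : IsCyclotomicExtension {(ψ.n : ℕ)} L (CyclotomicField ψ.n L) :=
    CyclotomicField.isCyclotomicExtension ψ.n L
  have hfin : FiniteDimensional L (CyclotomicField ψ.n L) :=
    IsCyclotomicExtension.finiteDimensional {(ψ.n : ℕ)} L (CyclotomicField ψ.n L)
  let φ : CyclotomicField ψ.n L →ₐ[L] L := IsAlgClosed.lift
  exact ⟨_, ψ.prim.compMulHom_of_isPrimitive (f := (φ : CyclotomicField ψ.n L →* L)) φ.injective⟩

omit hp [NeZero n] in
theorem residues_neg (a : Fin 5 → ZMod n) (i : Fin 10) : residues (-a) i = - residues a i := by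
  fin_cases i <;> simp [residues] <;> ring

omit hp [NeZero n] [CharZero L] [IsAlgClosed L] in
theorem quadSum_eq {K : Type} [Field K] [Fintype K] (τ : MulChar K L) (a : Fin 5 → ZMod n) :
    (quadSum fun i => power τ (a i)) =
      quad (ch τ (a 0)) (ch τ (a 1)) (ch τ (a 2)) (ch τ (a 3)) (ch τ (a 4)) := rfl

omit [IsAlgClosed L] in
/-- the traces on a part and on the dual part if there is a Jordan block -/
theorem dual_traces (H : QuadrilateralH2 p n L V) {m : ℕ} {a : Fin 5 → ZMod n}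
    (ha : ∀ i, (p : ZMod n) ^ m * a i = a i) (hne : H.W a ≠ ⊥)
    (hdeg : ∀ i, residues a i ≠ 0) {x : H.W a} {c : L}
    (hx : ((H.Fr ^ m).restrict (stable_of H ha) - c • 1)
        (((H.Fr ^ m).restrict (stable_of H ha) - c • 1) x) = 0)
    (hx' : ((H.Fr ^ m).restrict (stable_of H ha) - c • 1) x ≠ 0)
    (K : Type) [Field K] [Fintype K] (hK : Fintype.card K = p ^ m) :
    ∃ τ : MulChar K L, orderOf τ = Fintype.card K - 1 ∧ c ≠ 0 ∧
      quad (ch τ (a 0)) (ch τ (a 1)) (ch τ (a 2)) (ch τ (a 3)) (ch τ (a 4)) = 2 * c ∧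
      quad (ch τ (a 0))⁻¹ (ch τ (a 1))⁻¹ (ch τ (a 2))⁻¹ (ch τ (a 3))⁻¹ (ch τ (a 4))⁻¹ =
        2 * ((Fintype.card K : L) ^ 2 / c) := by
  obtain ⟨τ, hτ, htr⟩ := H.trace_formula m K hK
  rw [← hK] at hτ
  have hKa : ∀ i, ((Fintype.card K - 1 : ℕ) : ZMod n) * a i = 0 := by
    intro i
    rw [hK]
    exact kill (ha i)
  have ha' : ∀ i, (p : ZMod n) ^ m * (-a) i = (-a) i := by
    intro i
    rw [Pi.neg_apply, mul_neg, ha]
  have hQ0 : ((p : L) ^ m) ^ 2 ≠ 0 :=
    pow_ne_zero _ (pow_ne_zero _ (Nat.cast_ne_zero.2 hp.out.ne_zero))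
  have t1 := htr a hne hdeg ha (stable_of H ha)
  have t2 := htr (-a) (ne_bot_neg H hne) (fun i => by
    rw [residues_neg]
    exact neg_ne_zero.2 (hdeg i)) ha' (stable_of H ha')
  obtain ⟨hc, h1, h2⟩ := pair_trace (T := (H.Fr ^ m).restrict (stable_of H ha))
    (T' := (H.Fr ^ m).restrict (stable_of H ha'))
    (H.B.compl₁₂ (H.W a).subtype (H.W (-a)).subtype) hQ0
    (fun y z => similitude_pow H m (y : V) (z : V))
    (fun y hy => Subtype.ext (H.perfect a y y.2 fun w hw => hy ⟨w, hw⟩))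
    (fun z hz => Subtype.ext (H.perfect (-a) z z.2 fun w hw => by
      rw [neg_neg] at hw
      rw [H.symm]
      exact hz ⟨w, hw⟩)) (H.finrank_le a) hx hx'
  refine ⟨τ, hτ, hc, ?_, ?_⟩
  · rw [← h1, t1]
    rfl
  · rw [← ch_neg hτ (hKa 0), ← ch_neg hτ (hKa 1), ← ch_neg hτ (hKa 2), ← ch_neg hτ (hKa 3),
      ← ch_neg hτ (hKa 4), hK, Nat.cast_pow, ← h2, t2]
    rfl

omit [NeZero n] in
/-- the trace on a part which is the image of its dual under a power of Frobenius -/
theorem self_dual (H : QuadrilateralH2 p n L V) {f : ℕ} (hf : 0 < f) {a : Fin 5 → ZMod n}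
    (h2 : ∃ i, 2 * a i ≠ 0) (ha : ∀ i, (p : ZMod n) ^ f * a i = - a i)
    (hbad : ∀ (K : Type) [Field K] [Fintype K] (τ : MulChar K L),
      Fintype.card K = p ^ (2 * f) → orderOf τ = Fintype.card K - 1 →
          (∀ i, ((Fintype.card K - 1 : ℕ) : ZMod n) * a i = 0) → (∀ i, residues a i ≠ 0) →
          quad (ch τ (a 0)) (ch τ (a 1)) (ch τ (a 2)) (ch τ (a 3)) (ch τ (a 4)) =
            -2 * Fintype.card K → False) :
    H.W a ≤ ⨆ c, H.Fr.eigenspace c := by
  classical
  have ha2 : ∀ i, (p : ZMod n) ^ (2 * f) * a i = a i := by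
    intro i
    rw [two_mul, pow_add, mul_assoc, ha, mul_neg, ha, neg_neg]
  refine part H (by omega) h2 ha2 ?_
  intro hne hdeg x c hx hx'
  obtain ⟨K, _, _, hfin⟩ := exists_field (ZMod p) (show 0 < 2 * f by omega)
  have : Module.Finite (ZMod p) K := Module.finite_of_finrank_pos (by rw [hfin]; omega)
  have : Finite K := Module.finite_of_finite (ZMod p)
  have := Fintype.ofFinite K
  have hK : Fintype.card K = p ^ (2 * f) := by
    rw [Module.card_eq_pow_finrank (K := ZMod p), hfin, ZMod.card]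
  obtain ⟨τ, hτ, htr⟩ := H.trace_formula (2 * f) K hK
  rw [← hK] at hτ
  have t1 := htr a hne hdeg ha2 (stable_of H ha2)
  have hQ0 : ((p : L) ^ f) ^ 2 ≠ 0 :=
    pow_ne_zero _ (pow_ne_zero _ (Nat.cast_ne_zero.2 hp.out.ne_zero))
  have hfun : (fun i => (p : ZMod n) ^ f * a i) = -a := funext fun i => ha i
  have hst : ∀ y ∈ H.W a, (H.Fr ^ f) y ∈ H.W (-a) := by
    intro y hy
    have h := stable_pow H f a y hy
    rwa [hfun] at h
  have hst' : ∀ y ∈ H.W (-a), (H.Fr ^ f) y ∈ H.W a := by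
    intro y hy
    have h := stable_pow H f (-a) y hy
    have e : (fun i => (p : ZMod n) ^ f * (-a) i) = a := funext fun i => by
      rw [Pi.neg_apply, mul_neg, ha, neg_neg]
    rwa [e] at h
  -- the image of the part is its dual
  have hsurj : ∀ w ∈ H.W (-a), ∃ y ∈ H.W a, (H.Fr ^ f) y = w := by
    have hinj : Function.Injective (H.Fr ^ f) := by
      rw [End.coe_pow]
      exact H.injective.iterate _
    intro w hw
    let T : End L (H.W (-a)) := ((H.Fr ^ f) ∘ₗ (H.Fr ^ f)).restrict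
      (fun y hy => hst _ (hst' y hy))
    have hTi : Function.Injective T := by
      intro y z hyz
      have h := congrArg Subtype.val hyz
      exact Subtype.ext (hinj (hinj h))
    obtain ⟨y, hy⟩ := LinearMap.injective_iff_surjective.1 hTi ⟨w, hw⟩
    exact ⟨(H.Fr ^ f) (y : V), hst' _ y.2, congrArg Subtype.val hy⟩
  have h1 := self_trace (T := (H.Fr ^ (2 * f)).restrict (stable_of H ha2))
    (H.B.compl₁₂ (H.W a).subtype ((H.Fr ^ f) ∘ₗ (H.W a).subtype)) hQ0
    (fun y z => by
      change H.B ((H.Fr ^ (2 * f)) (y : V)) ((H.Fr ^ f) (z : V)) =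
        ((p : L) ^ f) ^ 2 * H.B (z : V) ((H.Fr ^ f) (y : V))
      rw [two_mul, pow_add, End.mul_apply, similitude_pow, H.symm])
    (fun y hy => Subtype.ext (H.perfect a y y.2 fun w hw => by
      obtain ⟨z, hz, rfl⟩ := hsurj w hw
      exact hy ⟨z, hz⟩)) (H.finrank_le a) hx hx'
  refine hbad K τ hK hτ (fun i => by rw [hK]; exact kill (ha2 i)) hdeg ?_
  have h3 : ((Fintype.card K : ℕ) : L) = ((p : L) ^ f) ^ 2 := by
    rw [hK, ← pow_mul, mul_comm f 2]
    push_cast
    rfl
  rw [h3, ← h1, t1]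
  rfl


/-- the self-dual case -/
theorem case_self (H : QuadrilateralH2 p n L V) {a : Fin 5 → ZMod n}
    (h2 : ∃ i, 2 * a i ≠ 0) (h : SelfDual p a) : H.W a ≤ ⨆ c, H.Fr.eigenspace c := by
  classical
  obtain ⟨f, r, j, hr, hr2, hf, hres⟩ := h
  have : Fact r.Prime := ⟨hr⟩
  have hf0 : 0 < f := by
    rcases f.eq_zero_or_pos with h | h
    · exfalso
      obtain ⟨i, hi⟩ := h2
      apply hi
      have h3 := hf i
      rw [h, pow_zero, one_mul] at h3
      linear_combination h3
    · exact h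
  refine self_dual H hf0 h2 hf ?_
  intro K _ _ τ hK hτ _ hdeg hS
  exact Pool.Agent.Helper44.QC.quad_ne_residue hK hτ hr hr2 hf hdeg hres hS

/-- the case of an odd valuation -/
theorem case_place (H : QuadrilateralH2 p n L V) (hpn : p.Coprime n) {a : Fin 5 → ZMod n}
    (h2 : ∃ i, 2 * a i ≠ 0) (h : OddPlace p a) : H.W a ≤ ⨆ c, H.Fr.eigenspace c := by
  obtain ⟨m, hm0, ha, g, hodd⟩ := h
  refine part H hm0 h2 ha ?_
  intro hne hdeg x c hx hx'
  obtain ⟨K, _, _, hfin⟩ := exists_field (ZMod p) hm0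
  have : Module.Finite (ZMod p) K := Module.finite_of_finrank_pos (by rw [hfin]; exact hm0)
  have : Finite K := Module.finite_of_finite (ZMod p)
  have := Fintype.ofFinite K
  have hK : Fintype.card K = p ^ m := by
    rw [Module.card_eq_pow_finrank (K := ZMod p), hfin, ZMod.card]
  obtain ⟨τ, hτ, hc, h1, h2'⟩ := dual_traces H ha hne hdeg hx hx' K hK
  obtain ⟨ψ, hψ⟩ := exists_addChar L K
  have hKa : ∀ i, ((Fintype.card K - 1 : ℕ) : ZMod n) * a i = 0 := by
    intro i
    rw [hK]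
    exact kill (ha i)
  -- the characters are not trivial
  have hKadd : ∀ {b c : ZMod n}, ((Fintype.card K - 1 : ℕ) : ZMod n) * b = 0 →
      ((Fintype.card K - 1 : ℕ) : ZMod n) * c = 0 →
        ((Fintype.card K - 1 : ℕ) : ZMod n) * (b + c) = 0 := by
    intro b c hb hc
    rw [mul_add, hb, hc, add_zero]
  have d5 : a 0 + a 1 + a 4 ≠ 0 := neg_ne_zero.1 (hdeg 5)
  have d6 : a 2 + a 3 + a 4 ≠ 0 := neg_ne_zero.1 (hdeg 6)
  have d7 : a 0 + a 2 + a 4 ≠ 0 := hdeg 7
  have d8 : a 1 + a 3 + a 4 ≠ 0 := hdeg 8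
  have d9 : a 0 + a 1 + a 2 + a 3 + a 4 ≠ 0 := neg_ne_zero.1 (hdeg 9)
  have three : ∀ {b c d : ZMod n}, ((Fintype.card K - 1 : ℕ) : ZMod n) * b = 0 →
      ((Fintype.card K - 1 : ℕ) : ZMod n) * c = 0 →
      ((Fintype.card K - 1 : ℕ) : ZMod n) * d = 0 → b + c + d ≠ 0 →
        ch τ b * ch τ c * ch τ d ≠ 1 := by
    intro b c d hb hc hd h0
    rw [← ch_add hτ hb hc, ← ch_add hτ (hKadd hb hc) hd]
    exact ch_ne_one hτ (hKadd (hKadd hb hc) hd) h0
  have five : ch τ (a 0) * ch τ (a 1) * ch τ (a 2) * ch τ (a 3) * ch τ (a 4) ≠ 1 := by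
    rw [← ch_add hτ (hKa 0) (hKa 1), ← ch_add hτ (hKadd (hKa 0) (hKa 1)) (hKa 2),
      ← ch_add hτ (hKadd (hKadd (hKa 0) (hKa 1)) (hKa 2)) (hKa 3),
      ← ch_add hτ (hKadd (hKadd (hKadd (hKa 0) (hKa 1)) (hKa 2)) (hKa 3)) (hKa 4)]
    exact ch_ne_one hτ (hKadd (hKadd (hKadd (hKadd (hKa 0) (hKa 1)) (hKa 2)) (hKa 3)) (hKa 4)) d9
  have hfe := Pool.Agent.Helper40.QC.functional_equation' (ch_ne_one hτ (hKa 0) (hdeg 0))
    (ch_ne_one hτ (hKa 1) (hdeg 1)) (ch_ne_one hτ (hKa 2) (hdeg 2)) (ch_ne_one hτ (hKa 3) (hdeg 3))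
    (ch_ne_one hτ (hKa 4) (hdeg 4)) (three (hKa 0) (hKa 1) (hKa 4) d5)
    (three (hKa 2) (hKa 3) (hKa 4) d6) (three (hKa 0) (hKa 2) (hKa 4) d7)
    (three (hKa 1) (hKa 3) (hKa 4) d8) five hψ
  rw [h1, h2'] at hfe
  have hsq := sq_ne_orbit hpn hm0 hK hτ hψ a ha g hodd
  apply hsq
  rw [h1]
  set T := ten (ch τ (a 0)) (ch τ (a 1)) (ch τ (a 2)) (ch τ (a 3)) (ch τ (a 4)) ψ
  have h3 : T * (2 * c) * (2 * c) = (Fintype.card K : L) ^ 5 *
      (2 * ((Fintype.card K : L) ^ 2 / c)) * (2 * c) := by rw [hfe]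
  calc T * (2 * c) ^ 2 = T * (2 * c) * (2 * c) := by ring
    _ = (Fintype.card K : L) ^ 5 * (2 * ((Fintype.card K : L) ^ 2 / c)) * (2 * c) := h3
    _ = 4 * (Fintype.card K : L) ^ 7 := by
      field_simp
      ring

end

section

variable {p r n : ℕ} {E : Type} [Field E] {F : RField r n E} {L V : Type}
  [Field L] [Algebra E L] [AddCommGroup V] [Module L V]

theorem vec_add (d : ℕ) (b : Basis (Fin d) L V) (c c' : Fin d → E) :
    vec b (c + c') = vec b c + vec b c' := by
  simp [vec, add_smul, Finset.sum_add_distrib]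

/-- the matrix of Frobenius is fixed by the involution -/
theorem Fr_vec (H : RationalH2 p F L V) (c : Fin H.d → E) :
    ∃ c', H.Fr (vec H.b c) = vec H.b c' ∧
      H.Fr (vec H.b fun i => F.σ (c i)) = vec H.b fun i => F.σ (c' i) := by
  choose A hA1 hA2 using H.Fr_rational
  have key : ∀ c : Fin H.d → E, H.Fr (vec H.b c) = vec H.b fun j => ∑ i, A i j * c i := by
    intro c
    apply H.b.repr.injective
    ext j
    rw [repr_vec, vec, map_sum, map_sum, Finsupp.finsetSum_apply, map_sum]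
    refine Finset.sum_congr rfl fun i _ => ?_
    rw [map_smul, map_smul, Finsupp.smul_apply, hA2, smul_eq_mul, map_mul, mul_comm]
  refine ⟨_, key c, ?_⟩
  rw [key]
  congr 1
  funext j
  rw [map_sum]
  refine Finset.sum_congr rfl fun i _ => ?_
  rw [map_mul, hA1]

theorem Fr_pow_vec (H : RationalH2 p F L V) (m : ℕ) (c : Fin H.d → E) :
    ∃ c', (H.Fr ^ m) (vec H.b c) = vec H.b c' ∧
      (H.Fr ^ m) (vec H.b fun i => F.σ (c i)) = vec H.b fun i => F.σ (c' i) := by
  induction m with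
  | zero => exact ⟨c, rfl, rfl⟩
  | succ m ih =>
    obtain ⟨c', h1, h2⟩ := ih
    obtain ⟨c'', h3, h4⟩ := Fr_vec H c'
    refine ⟨c'', ?_, ?_⟩
    · rw [pow_succ', End.mul_apply, h1, h3]
    · rw [pow_succ', End.mul_apply, h2, h4]

/-- values of the form -/
theorem B_vec (H : RationalH2 p F L V) (c c' : Fin H.d → E) :
    ∃ x : E, H.B (vec H.b c) (vec H.b c') = algebraMap E L x ∧
      H.B (vec H.b fun i => F.σ (c i)) (vec H.b fun i => F.σ (c' i)) =
        algebraMap E L (F.σ x) := by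
  choose A hA1 hA2 using H.B_rational
  have key : ∀ c c' : Fin H.d → E, H.B (vec H.b c) (vec H.b c') =
      algebraMap E L (∑ i, ∑ j, c i * c' j * A i j) := by
    intro c c'
    simp only [vec, map_sum, map_smul, LinearMap.sum_apply, LinearMap.smul_apply, hA2,
      smul_eq_mul, map_mul]
    rw [Finset.sum_comm]
    refine Finset.sum_congr rfl fun i _ => ?_
    rw [Finset.mul_sum]
    refine Finset.sum_congr rfl fun j _ => ?_
    ring
  refine ⟨_, key c c', ?_⟩
  rw [key]
  congr 1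
  simp only [map_sum, map_mul, hA1]

/-- A Jordan block of a power of Frobenius on a part of rank two: minus the product of the ten
numbers `1 - ζ ^ x` is a norm. -/
theorem norm_of_block (H : RationalH2 p F L V) [CharZero L] [FiniteDimensional L V]
    (hp : p ≠ 0) {m : ℕ} {a : Fin 5 → ZMod n} (hres : ∀ i, residues a i ≠ 0)
    (hsim : ∀ x y, H.B ((H.Fr ^ m) x) ((H.Fr ^ m) y) = ((p : L) ^ m) ^ 2 * H.B x y)
    (hst : ∀ x ∈ H.W a, (H.Fr ^ m) x ∈ H.W a) (x : H.W a) (c : L)
    (h1 : ((H.Fr ^ m).restrict hst - c • 1) (((H.Fr ^ m).restrict hst - c • 1) x) = 0)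
    (h2 : ((H.Fr ^ m).restrict hst - c • 1) x ≠ 0) :
    ∃ y : E, y * F.σ y = -∏ i, (1 - F.ζ ^ (residues a i).val) := by
  have hQ : ((p : L) ^ m) ^ 2 ≠ 0 := pow_ne_zero _ (pow_ne_zero _ (Nat.cast_ne_zero.2 hp))
  have h1' : (H.Fr ^ m) ((H.Fr ^ m) (x : V) - c • (x : V)) =
      c • ((H.Fr ^ m) (x : V) - c • (x : V)) := by
    have := congrArg Subtype.val h1
    simp only [LinearMap.sub_apply, LinearMap.smul_apply, End.one_apply, LinearMap.restrict_apply,
      Submodule.coe_sub, Submodule.coe_smul, Submodule.coe_zero] at this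
    rw [sub_eq_zero] at this
    exact this
  have h2' : (H.Fr ^ m) (x : V) - c • (x : V) ≠ 0 := by
    intro h
    apply h2
    apply Subtype.ext
    simp only [LinearMap.sub_apply, LinearMap.smul_apply, End.one_apply, LinearMap.restrict_apply,
      Submodule.coe_sub, Submodule.coe_smul, Submodule.coe_zero]
    exact h
  obtain ⟨e, v, he, hv, hind, hiso⟩ := isotropic_of_block F.σ H.b (H.Fr ^ m) H.B hQ hsim
    (fun c => Fr_pow_vec H m c) (H.W a) (H.W_rational a) (H.finrank_le a) hst x.2 h1' h2'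
  obtain ⟨z, hz, hdet⟩ := H.det a hres e v he hv hind
  rw [hiso, mul_zero, zero_sub] at hdet
  obtain ⟨y, hy1, hy2⟩ := B_vec H e fun i => F.σ (v i)
  have hy3 : H.B (vec H.b v) (vec H.b fun i => F.σ (e i)) = algebraMap E L (F.σ y) := by
    rw [H.symm, ← hy2]
    simp only [F.invol]
  rw [hy1, hy3, ← map_mul, ← map_neg] at hdet
  have h3 := (algebraMap E L).injective hdet
  have hσz : F.σ z ≠ 0 := (map_ne_zero F.σ).2 hz
  refine ⟨y / z, ?_⟩
  rw [map_div₀]
  field_simp
  linear_combination -h3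

end


/-- **Main theorem.** -/
theorem result (p r k : ℕ) [hp : Fact p.Prime] [hr : Fact r.Prime] (h4 : r % 4 = 3) (hpr : p ≠ r)
    {E L V : Type} [Field E] [Field L] [Algebra E L] [CharZero L] [IsAlgClosed L]
    [AddCommGroup V] [Module L V] [FiniteDimensional L V] (F : RField r (r ^ k) E)
    (H : RationalH2 p F L V) : End.IsSemisimple H.Fr := by
  have hcop : p.Coprime r := (Nat.coprime_primes hp.out hr.out).2 hpr
  have hpn : p.Coprime (r ^ k) := hcop.pow_right k
  have : NeZero (r ^ k) := ⟨pow_ne_zero _ hr.out.ne_zero⟩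
  apply semisimple_of_iSup
  rw [eq_top_iff, ← H.span]
  refine sup_le (le_of_semisimple H.N_stable H.N_semisimple) (iSup_le fun a => ?_)
  by_cases h2 : ∃ i, 2 * a i ≠ 0
  · by_cases hd : SelfDual p a ∨ OddPlace p a
    · rcases hd with h | h
      · exact case_self H.toQuadrilateralH2 h2 h
      · exact case_place H.toQuadrilateralH2 hpn h2 h
    · let P : (ZMod (r ^ k))ˣ := ZMod.unitOfCoprime p hpn
      have hP : (p : ZMod (r ^ k)) ^ orderOf P = 1 := by
        have h4 := congrArg Units.val (pow_orderOf_eq_one P)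
        rwa [Units.val_pow_eq_pow_val, ZMod.coe_unitOfCoprime, Units.val_one] at h4
      refine part H.toQuadrilateralH2 (orderOf_pos P) h2 (fun i => by rw [hP, one_mul]) ?_
      intro hW hres x c h1 h1'
      obtain ⟨y, hy⟩ := norm_of_block H hp.out.ne_zero hres
        (similitude_pow H.toQuadrilateralH2 _) _ x c h1 h1'
      exact hd (of_dual (Pool.Agent.Helper79.RC.dual_or_place_of_norm h4 hpr F hres y hy))
  · push Not at h2
    exact case_two H.toQuadrilateralH2 hp.out hpn h2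

end Pool.Agent.Results.MP_1fe969_ag.RamifiedCovers
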